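import Pool.Agent.Q222.SH.Final

/-!
# Inclusion of a regular language in a shuffle of deterministic languages (MP_732884)

Undecidable already for `L = Σ*`, `L₁` regular and a fixed `L₂` accepted by a deterministic
automaton with one counter and one reversal.
-/

set_option autoImplicit false

namespace Pool.Agent.Results.MP_732884_lc.InclusionUndecidable

open Q222.SH

/-- The shuffle of two words: all words `u₁v₁u₂v₂⋯u_kv_k` with `k ≥ 1`, `u = u₁⋯u_k`,
`v = v₁⋯v_k`. -/
def shuffleWords {α : Type} (u v : List α) : Set (List α) :=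
  {w | ∃ l : List (List α × List α), l ≠ [] ∧ u = (l.map Prod.fst).flatten ∧
    v = (l.map Prod.snd).flatten ∧ w = (l.map fun p => p.1 ++ p.2).flatten}

/-- The shuffle of two languages. -/
def shuffle {α : Type} (A B : Set (List α)) : Set (List α) :=
  {w | ∃ u ∈ A, ∃ v ∈ B, w ∈ shuffleWords u v}

theorem mem_shuffle {α : Type} (A B : Set (List α)) (w : List α) :
    w ∈ shuffle A B ↔ ∃ u ∈ A, ∃ v ∈ B, Shuf u v w := by
  have h : ∀ u v : List α, w ∈ shuffleWords u v ↔ Shuf u v w := fun u v => Shuf.iff_blocks.symm
  constructor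
  · rintro ⟨u, hu, v, hv, hw⟩
    exact ⟨u, hu, v, hv, (h u v).1 hw⟩
  · rintro ⟨u, hu, v, hv, hw⟩
    exact ⟨u, hu, v, hv, (h u v).2 hw⟩

/-- an automaton for all words -/
def allc (k : ℕ) : NFAc (Fin k) := ([0], (List.finRange k).map (fun a => (0, a, 0)), [0])

theorem lng_allc (k : ℕ) : lng (allc k) = Set.univ := by
  refine Set.eq_univ_of_forall fun w => ⟨0, by simp [allc], 0, by simp [allc], ?_⟩
  induction w with
  | nil => rfl
  | cons a w ih => exact ⟨0, by simp [allc], ih⟩

/-- There are an alphabet `Fin k` and a deterministic one-counter automaton `M` with one counter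
reversal such that no algorithm decides, given a finite automaton `c`, whether
`Σ* ⊆ L(c) ⧢ L(M)`. In particular no algorithm decides, given finite automata `c₀, c`, whether
`L(c₀) ⊆ L(c) ⧢ L(M)`. -/
theorem result : ∃ (k : ℕ) (M : DCM (Fin k)), M.OneReversal ∧
    ¬ ComputablePred (fun c : NFAc (Fin k) =>
      (Set.univ : Set (List (Fin k))) ⊆ shuffle (lng c) M.lang) ∧
    ¬ ComputablePred (fun c : NFAc (Fin k) × NFAc (Fin k) =>
      lng c.1 ⊆ shuffle (lng c.2) M.lang) := by
  obtain ⟨k, M, H, code, hM, hH, hc, h⟩ := main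
  have key : ¬ ComputablePred (fun c : NFAc (Fin k) =>
      (Set.univ : Set (List (Fin k))) ⊆ shuffle (lng c) M.lang) := by
    intro hd
    obtain ⟨f, hf, h2⟩ := ComputablePred.computable_iff.1 hd
    have h3 : ComputablePred fun n => ¬ H n := by
      refine ComputablePred.computable_iff.2 ⟨fun n => f (code n), hf.comp hc, ?_⟩
      funext n
      have h4 := congrFun h2 (code n)
      rw [← h4]
      refine propext ((h n).symm.trans ?_)
      rw [Set.univ_subset_iff, Set.eq_univ_iff_forall]
      simp only [mem_shuffle]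
    exact hH (h3.not.of_eq fun n => not_not)
  refine ⟨k, M, hM, key, ?_⟩
  intro hd
  apply key
  obtain ⟨f, hf, h2⟩ := ComputablePred.computable_iff.1 hd
  refine ComputablePred.computable_iff.2 ⟨fun c => f (allc k, c),
    hf.comp (Computable.pair (Computable.const _) Computable.id), ?_⟩
  funext c
  have h4 := congrFun h2 (allc k, c)
  simp only [lng_allc] at h4
  exact h4

end Pool.Agent.Results.MP_732884_lc.InclusionUndecidable
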